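import Mathlib
import Pool.Agent.P8H29.UI.Stm

/-!
# Project IU: uniform boundedness for all inseparable polynomials over function fields

Statements of the packages.
-/

set_option autoImplicit false

namespace Pool.Agent.P8H67.IU

open Polynomial Finset

universe u v w

/-! ### Definitions: polynomials over a normed field -/

section defs

variable {L : Type u} [NormedField L]

/-- the product of `max ρ ‖c - η‖` over the roots `η` of `h`, with multiplicity -/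
noncomputable def GN (h : L[X]) (c : L) (ρ : ℝ) : ℝ :=
  (h.roots.map fun η => max ρ ‖c - η‖).prod

open scoped Classical in
/-- the number of roots of `h`, with multiplicity, in the closed disc of radius `ρ` around `c` -/
noncomputable def cnt (h : L[X]) (c : L) (ρ : ℝ) : ℕ :=
  (h.roots.filter fun η => ‖c - η‖ ≤ ρ).card

/-- the `n`-th iterate of the polynomial `f` -/
noncomputable def it (f : L[X]) (n : ℕ) : L[X] := (f.comp)^[n] X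

/-- the disc of radius `R` around `x₀` contains the filled Julia set of `f`, and it is the smallest
such disc -/
structure Disc (f : L[X]) (x₀ : L) (R : ℝ) : Prop where
  one : 1 ≤ R
  esc : ∀ z, R < ‖z - x₀‖ → ‖f.eval z - x₀‖ = ‖z - x₀‖ ^ f.natDegree
  inn : ∀ a η, ‖a - x₀‖ ≤ R → f.eval η = a → ‖η - x₀‖ ≤ R
  far : 1 < R → ∀ a q, ‖a - x₀‖ ≤ R → ‖q - x₀‖ ≤ R → ∃ η, f.eval η = a ∧ ‖η - q‖ = R

/-- the whole orbit of `y` lies in the disc -/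
def Orb (f : L[X]) (x₀ : L) (R : ℝ) (y : L) : Prop :=
  ∀ n : ℕ, ‖(fun z => f.eval z)^[n] y - x₀‖ ≤ R

/-- the logarithmic distance (`0` on the diagonal) -/
noncomputable def ld (x y : L) : ℝ := Real.log ‖x - y‖

end defs

/-! ### Definitions: sums over finite sets -/

section sums

variable {α : Type u}

/-- energy -/
noncomputable def En (δ : α → α → ℝ) (Y : Finset α) : ℝ := ∑ x ∈ Y, ∑ y ∈ Y, δ x y

/-- the largest of the three distances -/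
noncomputable def Mx (δ : α → α → ℝ) (l x y : α) : ℝ := max (δ x y) (max (δ x l) (δ y l))

/-- the amount by which the distance is below `- d r` -/
noncomputable def er (δ : α → α → ℝ) (d : ℕ) (r : ℝ) (x y : α) : ℝ := max 0 (-(d * r) - δ x y)

/-- sum of `er` over the images under `F` -/
noncomputable def Er (δ : α → α → ℝ) (d : ℕ) (r : ℝ) (F : α → α) (Y : Finset α) : ℝ :=
  ∑ x ∈ Y, ∑ y ∈ Y, er δ d r (F x) (F y)

/-- the local inequality -/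
def LocIneq (δ : α → α → ℝ) (F : α → α) (Y : Finset α) (l : α) (d : ℕ) (r A T c : ℝ) : Prop :=
  c * r * (Y.card : ℝ) ^ 2 ≤ ∑ x ∈ Y, ∑ y ∈ Y, Mx δ l x y - T * En δ Y
    + (T + 1) * (Er δ d r id Y + Er δ d r F Y) ∧
  (1 ≤ 2 * (d + 1) * r → (c * r + A) * (Y.card : ℝ) ^ 2 ≤ ∑ x ∈ Y, ∑ y ∈ Y, Mx δ l x y
    - T * En δ Y + (T + 1) * (Er δ d r id Y + Er δ d r F Y))

end sums

/-! ### Packages: local -/

/-- GNM: the Gauss norm of `h - b` on a disc, and the number of roots in a disc -/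
def S_GNM : Prop := ∀ (L : Type u) [NormedField L] [IsUltrametricDist L] [IsAlgClosed L]
  (h : L[X]), h.Monic → 1 ≤ h.natDegree → ∀ (b c : L) (ρ : ℝ), 0 < ρ →
    GN (h - C b) c ρ = max (GN (h - C (h.eval c)) c ρ) ‖b - h.eval c‖ ∧
    (‖b - h.eval c‖ ≤ GN (h - C (h.eval c)) c ρ →
      cnt (h - C b) c ρ = cnt (h - C (h.eval c)) c ρ) ∧
    (GN (h - C (h.eval c)) c ρ < ‖b - h.eval c‖ → cnt (h - C b) c ρ = 0)

/-- ITR: iterates and their fibres -/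
def S_ITR : Prop := ∀ (L : Type u) [Field L] [IsAlgClosed L] (f : L[X]), f.Monic →
  1 ≤ f.natDegree →
  (∀ n, ((f.comp)^[n] X).Monic ∧ ((f.comp)^[n] X).natDegree = f.natDegree ^ n ∧
    ∀ x, ((f.comp)^[n] X).eval x = (fun z => f.eval z)^[n] x) ∧
  ∀ (l j : ℕ) (a : L), ((f.comp)^[l + j] X - C a).roots =
    (((f.comp)^[j] X - C a).roots).bind fun b => ((f.comp)^[l] X - C b).roots

/-- GEO: existence of the smallest disc, with an explicit radius -/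
def S_GEO : Prop := ∀ (L : Type u) [NormedField L] [IsUltrametricDist L] [IsAlgClosed L]
  (f : L[X]) (d : ℕ), f.Monic → f.natDegree = d → 2 ≤ d → ∀ (x₀ : L),
  (∃ B : ℝ, ∀ n : ℕ, ‖(fun z => f.eval z)^[n] x₀ - x₀‖ ≤ B) → ∀ R : ℝ, 1 ≤ R →
  (∀ i, 1 ≤ i → i < d → ‖(f.comp (X + C x₀)).coeff i‖ ≤ R ^ (d - i)) →
  (R = 1 ∨ ∃ i, 1 ≤ i ∧ i < d ∧ ‖(f.comp (X + C x₀)).coeff i‖ = R ^ (d - i)) →
  Disc f x₀ R

/-- LBR: an inseparable polynomial contracts -/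
def S_LBR : Prop := ∀ (L : Type u) [NormedField L] [IsUltrametricDist L] [IsAlgClosed L]
  (f : L[X]) (p d : ℕ), f.Monic → f.natDegree = d → 2 ≤ d →
  (∀ a : L, (X - C a) ^ p ∣ f - C (f.eval a)) → ∀ (x₀ : L) (R : ℝ), Disc f x₀ R →
  ∀ x y : L, ‖x - x₀‖ ≤ R → ‖f.eval y - x₀‖ ≤ R →
    p ≤ d ∧ ‖f.eval x - f.eval y‖ ≤ ‖x - y‖ ^ p * R ^ (d - p)

/-- UB: the energy of a finite set of points with bounded orbits is almost not positive -/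
def S_UB : Prop := ∀ (L : Type u) [NormedField L] [IsUltrametricDist L] (f : L[X]) (d : ℕ),
  f.Monic → f.natDegree = d → 2 ≤ d → ∀ (x₀ : L) (R : ℝ), 1 ≤ R → ∀ Y : Finset L,
  (∀ y ∈ Y, Orb f x₀ R y) →
    En ld Y ≤ Real.log R * (2 * d * Y.card * ((Nat.log d Y.card : ℝ) + 1))

/-- POS: the kernel `- log ‖x - y‖` is positive definite on measures of total mass zero -/
def S_POS : Prop := ∀ (L : Type u) [NormedField L] [IsUltrametricDist L] (ι : Type u) [Fintype ι]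
  (x : ι → L) (τ : ι → ℝ) (c : L) (s₀ x₁ x₂ r γ : ℝ), ∑ i, τ i = 0 → s₀ ≤ x₁ → x₁ ≤ x₂ → x₂ ≤ r →
  (∀ i j, ‖x i - x j‖ ≤ Real.exp r) → 0 ≤ γ →
  (∀ s, x₁ ≤ s → s < x₂ → γ ≤ |∑ i, if ‖c - x i‖ ≤ Real.exp s then τ i else 0|) →
  ∑ i, ∑ j, τ i * τ j * Real.log (max (Real.exp s₀) ‖x i - x j‖) ≤ -(γ ^ 2 * (x₂ - x₁))

/-- EN: the distance of a finite set from the preimage of its image -/
def S_EN : Prop := ∀ (L : Type u) [NormedField L] [IsUltrametricDist L] [IsAlgClosed L]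
  (F : L[X]) (q d : ℕ), F.Monic → F.natDegree = q → 1 ≤ q → ∀ (x₀ : L) (R : ℝ), 1 ≤ R →
  ∀ Y : Finset L, Set.InjOn (fun y => F.eval y) (Y : Set L) → (∀ y ∈ Y, ‖y - x₀‖ ≤ R) →
  (∀ y ∈ Y, ‖F.eval y - x₀‖ ≤ R) → (∀ y ∈ Y, ∀ η, F.eval η = F.eval y → ‖η - x₀‖ ≤ R) →
  ∀ (c : L) (x₁ x₂ γ : ℝ), -((q - 1 + d) * Real.log R) ≤ x₁ → x₁ ≤ x₂ → x₂ ≤ Real.log R → 0 ≤ γ →
  (∀ s, x₁ ≤ s → s < x₂ → γ ≤ |(((Y.filter fun y => ‖c - y‖ ≤ Real.exp s).card : ℝ) / Y.card) -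
    (∑ y ∈ Y, (cnt (F - C (F.eval y)) c (Real.exp s) : ℝ)) / (q * Y.card)|) →
  γ ^ 2 * (x₂ - x₁) * (Y.card : ℝ) ^ 2 ≤ -(En ld Y)
    + (∑ x ∈ Y, ∑ y ∈ Y, ld (F.eval x) (F.eval y)) / q + 2 / q * Er ld d (Real.log R) (fun y => F.eval y) Y
    + 2 * (q + d) * Real.log R * Y.card

/-- PATH: the preimages of the disc around a point whose orbit stays in the disc -/
def S_PATH : Prop := ∀ (L : Type u) [NormedField L] [IsUltrametricDist L] [IsAlgClosed L]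
  (f : L[X]) (p d : ℕ), f.Monic → f.natDegree = d → 2 ≤ p → 2 ≤ d →
  (∀ a : L, (X - C a) ^ p ∣ f - C (f.eval a)) → ∀ (x₀ : L) (R : ℝ), Disc f x₀ R → 1 < R →
  ∀ q₀ : L, Orb f x₀ R q₀ → ∀ n : ℕ, ∃ x W : ℕ → ℝ,
    (∀ l, l ≤ n → -(d * Real.log R) ≤ x l ∧ x l ≤ Real.log R) ∧
    (∀ l, l < n → x (l + 1) ≤ x l - Real.log R / d ^ l) ∧
    (∀ l, l ≤ n → 1 / (d : ℝ) ^ l ≤ W l) ∧
    ∀ a : L, ‖a - x₀‖ ≤ R → ∀ s : ℝ,
      (∀ l, l ≤ n → x l ≤ s → W l * (d : ℝ) ^ n ≤ cnt (it f n - C a) q₀ (Real.exp s)) ∧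
      (∀ l, l < n → s < x l → (cnt (it f n - C a) q₀ (Real.exp s) : ℝ) ≤
        (1 - 1 / (d : ℝ)) * W l * (d : ℝ) ^ n)

/-- LA: a finite set of points with few distances has negative energy -/
def S_LA : Prop := ∀ (p d J : ℕ), 2 ≤ p → 2 ≤ d → 1 ≤ J → ∃ (ε : ℝ) (N₀ : ℕ), 0 < ε ∧
  ∀ (L : Type u) [NormedField L] [IsUltrametricDist L] [IsAlgClosed L] (f : L[X]), f.Monic →
  f.natDegree = d → (∀ a : L, (X - C a) ^ p ∣ f - C (f.eval a)) → ∀ (x₀ : L) (R : ℝ),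
  Disc f x₀ R → 1 < R → ∀ Y : Finset L, N₀ ≤ Y.card → (∀ y ∈ Y, Orb f x₀ R y) →
  Set.InjOn ((fun z => f.eval z)^[2 * J + 1]) (Y : Set L) →
  (∃ α : ℝ, ∀ x ∈ Y, ∀ y ∈ Y, x ≠ y → ∃ m : ℤ, ld x y = α + m) →
  (J : ℝ) - 1 ≤ (d + 1) * Real.log R ∨
  En ld Y ≤ -(ε * Real.log R * (Y.card : ℝ) ^ 2)
    + Er ld d (Real.log R) ((fun z => f.eval z)^[2 * J + 1]) Y

/-- LB: the mean of the largest distances -/
def S_LB : Prop := ∀ (d n : ℕ), 2 ≤ d → 1 ≤ n → ∃ N₀ : ℕ,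
  ∀ (L : Type u) [NormedField L] [IsUltrametricDist L] [IsAlgClosed L] (f : L[X]), f.Monic →
  f.natDegree = d → ∀ (x₀ : L) (R : ℝ),
  Disc f x₀ R → 1 < R → ∀ Y : Finset L, N₀ ≤ Y.card → (∀ y ∈ Y, Orb f x₀ R y) →
  Set.InjOn ((fun z => f.eval z)^[n]) (Y : Set L) → ∀ l₀ : L, ‖l₀ - x₀‖ ≤ R → l₀ ∉ Y →
  En ld Y ≤ -(1 / (8 * (d : ℝ) ^ 2) * Real.log R * (Y.card : ℝ) ^ 2)
    + Er ld d (Real.log R) ((fun z => f.eval z)^[n]) Y ∨
  1 / (8 * (d : ℝ) ^ 2) * Real.log R * (Y.card : ℝ) ^ 2 + En ld Y ≤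
    ∑ x ∈ Y, ∑ y ∈ Y, Mx ld l₀ x y

/-- LOC: the local inequality -/
def S_LOC : Prop := ∀ (p d : ℕ) (A : ℝ), 2 ≤ p → 2 ≤ d → 0 ≤ A →
  ∃ (n N₀ : ℕ) (T c : ℝ), 1 ≤ n ∧ 1 ≤ T ∧ 0 < c ∧
  ∀ (L : Type u) [NormedField L] [IsUltrametricDist L] [IsAlgClosed L] (f : L[X]), f.Monic →
  f.natDegree = d → (∀ a : L, (X - C a) ^ p ∣ f - C (f.eval a)) → ∀ (x₀ : L) (R : ℝ),
  Disc f x₀ R → ∀ Y : Finset L, N₀ ≤ Y.card → (∀ y ∈ Y, Orb f x₀ R y) →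
  Set.InjOn ((fun z => f.eval z)^[n]) (Y : Set L) →
  (∃ α : ℝ, ∀ x ∈ Y, ∀ y ∈ Y, x ≠ y → ∃ m : ℤ, ld x y = α + m) →
  ∀ l₀ : L, ‖l₀ - x₀‖ ≤ R → l₀ ∉ Y →
  LocIneq ld ((fun z => f.eval z)^[n]) Y l₀ d (Real.log R) A T c

/-! ### Packages: from the places of a function field to normed fields -/

/-- EXT: a discrete valuation extends to an algebraically closed field -/
def S_EXT : Prop := ∀ (K : Type u) [Field K] (ord : K → ℤ),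
  (∀ x y, x ≠ 0 → y ≠ 0 → ord (x * y) = ord x + ord y) →
  (∀ x y (m : ℤ), x ≠ 0 → y ≠ 0 → x + y ≠ 0 → m ≤ ord x → m ≤ ord y → m ≤ ord (x + y)) →
  ∃ (L : Type u) (_ : NormedField L) (_ : IsUltrametricDist L) (_ : IsAlgClosed L) (j : K →+* L),
    ∀ x, x ≠ 0 → ‖j x‖ = Real.exp (-(ord x : ℝ))

open scoped Classical in
/-- the normalised distance of `x` and `y` at the place `v`, for a polynomial of degree `d` with
leading coefficient `a` -/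
noncomputable def dl {p : ℕ} {k : Type u} {K : Type v} [Field k] [Field K] [Algebra k K]
    (Q : P8H29.UI.PC.{u, v, w} p k K) (a : K) (d : ℕ) (v : Q.Pl) (x y : K) : ℝ :=
  if x = y then 0 else -(Q.ord v (x - y) : ℝ) - (Q.ord v a : ℝ) / ((d : ℝ) - 1)

/-- VL: the local inequality at the places of a function field -/
def S_VL : Prop := ∀ (p d : ℕ) [Fact p.Prime] (A : ℝ), 2 ≤ d → 0 ≤ A →
  ∃ (n N₀ : ℕ) (T c : ℝ), 1 ≤ n ∧ 1 ≤ T ∧ 0 < c ∧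
  ∀ (k K : Type u) [Field k] [Field K] [Algebra k K] [CharP K p]
    (Q : P8H29.UI.PC.{u, u, u} p k K) (f g : K[X]), f = expand K p g → f.natDegree = d →
  ∀ Z : Finset K, Z.Nonempty → (∀ z ∈ Z, f.eval z ∈ Z) →
  ∃ r : Q.Pl → ℝ, (∀ v, 0 ≤ r v) ∧ {v | r v ≠ 0}.Finite ∧
    (∀ v, ∀ x ∈ Z, ∀ y ∈ Z, dl Q f.leadingCoeff d v x y ≤ r v) ∧
    (∀ v, ∀ x ∈ Z, ∀ y ∈ Z, x ≠ y → f.eval x ≠ f.eval y →
      dl Q f.leadingCoeff d v (f.eval x) (f.eval y) ≤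
        p * dl Q f.leadingCoeff d v x y + ((d : ℝ) - p) * r v) ∧
    ∀ v, ∀ Y : Finset K, Y ⊆ Z → N₀ ≤ Y.card → Set.InjOn ((fun z => f.eval z)^[n]) (Y : Set K) →
      ∀ l₀ ∈ Z, l₀ ∉ Y →
      LocIneq (dl Q f.leadingCoeff d v) ((fun z => f.eval z)^[n]) Y l₀ d (r v) A T c

/-! ### Packages: global -/

/-- MAS: the inequality of Mason and Stothers -/
def S_MAS : Prop := ∀ (p : ℕ) [Fact p.Prime] (k K : Type u) [Field k] [Field K] [Algebra k K]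
  [CharP K p] (Q : P8H29.UI.PC.{u, u, u} p k K) (a b c : K), a ≠ 0 → b ≠ 0 → c ≠ 0 →
  a + b + c = 0 → (¬ ∃ y : K, y ^ p = a / b) → ∀ S S' : Finset Q.Pl,
  (∀ v, v ∉ S → Q.ord v a = Q.ord v b ∧ Q.ord v b = Q.ord v c) →
  (∀ v, v ∉ S' → Q.ord v a = 0 ∧ Q.ord v b = 0 ∧ Q.ord v c = 0) →
  ∑ v ∈ S', Q.wt v * max (-Q.ord v a) (max (-Q.ord v b) (-Q.ord v c)) ≤ Q.T + ∑ v ∈ S, Q.wt v

open scoped Classical in
/-- CHO: choice of a point and a large set, most pairs of which are not collinear with the point -/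
def S_CHO : Prop := ∀ (m N₀ : ℕ) (η : ℝ), 0 < η → ∃ B : ℕ, ∀ (K : Type u) [Field K]
  (P : Subfield K) (Z : Finset K) (F : K → K), (∀ z ∈ Z, F z ∈ Z) →
  (∀ b ∈ Z, (Z.filter fun z => F z = b).card ≤ m) →
  (∃ x ∈ Z, ∃ y ∈ Z, ∃ z ∈ Z, x ≠ y ∧ x ≠ z ∧ y ≠ z ∧ (x - y) / (x - z) ∉ P) → B ≤ Z.card →
  ∃ l₀ ∈ Z, ∃ Y : Finset K, Y ⊆ Z ∧ l₀ ∉ Y ∧ N₀ ≤ Y.card ∧
    Set.InjOn F (insert l₀ (Y : Set K)) ∧
    ((((Y ×ˢ Y).filter fun w => w.1 = w.2 ∨ (w.1 - l₀) / (w.2 - l₀) ∈ P).card : ℝ) ≤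
      η * (Y.card : ℝ) ^ 2)

/-- GLO: for many preperiodic points all ratios are `p`-th powers -/
def S_GLO : Prop := ∀ (p : ℕ) [Fact p.Prime] (d : ℕ) (T : ℤ), 2 ≤ d → ∃ B : ℕ,
  ∀ (k K : Type u) [Field k] [IsAlgClosed k] [Field K] [Algebra k K] [CharP K p]
    (Q : P8H29.UI.PC.{u, u, u} p k K), Q.T = T → ∀ (f g : K[X]), f = expand K p g →
  f.natDegree = d → ∀ Z : Finset K, (∀ z ∈ Z, f.eval z ∈ Z) → B ≤ Z.card →
  ∀ x ∈ Z, ∀ y ∈ Z, ∀ z ∈ Z, x ≠ y → x ≠ z → y ≠ z → ∃ w : K, w ^ p = (x - y) / (x - z)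

/-- DES: descent by Frobenius: then all ratios are constant -/
def S_DES : Prop := ∀ (p : ℕ) [Fact p.Prime] (d B : ℕ), 2 ≤ d → d + 1 ≤ B →
  ∀ (k K : Type u) [Field k] [IsAlgClosed k] [Field K] [Algebra k K] [CharP K p]
    (Q : P8H29.UI.PC.{u, u, u} p k K),
  (∀ (f g : K[X]), f = expand K p g → f.natDegree = d → ∀ Z : Finset K,
    (∀ z ∈ Z, f.eval z ∈ Z) → B ≤ Z.card → ∀ x ∈ Z, ∀ y ∈ Z, ∀ z ∈ Z, x ≠ y → x ≠ z → y ≠ z →
    ∃ w : K, w ^ p = (x - y) / (x - z)) →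
  ∀ (f g : K[X]), f = expand K p g → f.natDegree = d → ∀ Z : Finset K,
    (∀ z ∈ Z, f.eval z ∈ Z) → B ≤ Z.card → ∀ x ∈ Z, ∀ y ∈ Z, ∀ z ∈ Z, x ≠ y → x ≠ z → y ≠ z →
    ∃ c : k, algebraMap k K c = (x - y) / (x - z)

/-- FIN: the final statement -/
def S_FIN : Prop := ∀ (p : ℕ) [Fact p.Prime] (k : Type v) (K : Type u) [Field k] [CharP k p]
  [Field K] [Algebra k K] (t : K), Transcendental k t →
  FiniteDimensional (IntermediateField.adjoin k {t}) K → ∀ d : ℕ, 2 ≤ d → ∃ B : ℕ,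
  ∀ (M : Type w) [Field M] [Algebra k M] [Algebra K M] [IsScalarTower k K M]
    [IsPurelyInseparable K M] (f : M[X]), f.natDegree = d → derivative f = 0 →
  (¬ ∃ a b : M, a ≠ 0 ∧ ∀ i : ℕ, IsAlgebraic k ((C a⁻¹ * (f.comp (C a * X + C b) - C b)).coeff i)) →
  {x : M | (Set.range fun n : ℕ => (fun z : M => f.eval z)^[n] x).Finite}.encard ≤ (B : ℕ∞)

end Pool.Agent.P8H67.IU
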