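import Pool.Agent.P8H67.IU.Stm
import Pool.Agent.P8H29.UI.Fin

/-!
# Project IU, package FIN
-/

set_option autoImplicit false

namespace Pool.Agent.P8H67.IU

open Polynomial Finset
open Pool.Agent.P8H29.UI (PC)

universe u v w

/-- a polynomial which maps many points of a subfield to the subfield has its coefficients there -/
lemma coeff_mem_of_eval_mem {M : Type*} [Field M] (E : Subfield M) (h : M[X]) (S : Finset M)
    (hS : ∀ x ∈ S, x ∈ E) (hdeg : h.natDegree < S.card) (hv : ∀ x ∈ S, h.eval x ∈ E) (i : ℕ) :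
    h.coeff i ∈ E := by
  classical
  set vE : {x // x ∈ S} → E := fun x => ⟨x.1, hS x.1 x.2⟩ with hvE
  set rE : {x // x ∈ S} → E := fun x => ⟨h.eval x.1, hv x.1 x.2⟩ with hrE
  set q : E[X] := Lagrange.interpolate Finset.univ vE rE with hq
  have hinj : Set.InjOn vE (Finset.univ : Finset {x // x ∈ S}) := by
    intro a _ b _ hab
    apply Subtype.ext
    exact congrArg (fun z : E => (z : M)) hab
  have hcard : (Finset.univ : Finset {x // x ∈ S}).card = S.card := by simp
  have hqdeg : q.degree < (Finset.univ : Finset {x // x ∈ S}).card :=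
    Lagrange.degree_interpolate_lt _ hinj
  have hinj2 : Set.InjOn (fun x : {x // x ∈ S} => x.1) (Finset.univ : Finset {x // x ∈ S}) :=
    fun a _ b _ hab => Subtype.ext hab
  have heq : h = q.map E.subtype := by
    apply Polynomial.eq_of_degrees_lt_of_eval_index_eq Finset.univ hinj2
    · rw [hcard]
      by_cases h0 : h = 0
      · rw [h0, degree_zero]; exact WithBot.bot_lt_coe _
      · rw [degree_eq_natDegree h0]; exact_mod_cast hdeg
    · exact (degree_map_le).trans_lt hqdeg
    · intro x hx
      have h1 : q.eval (vE x) = rE x := Lagrange.eval_interpolate_at_node rE hinj hx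
      have h2 : (q.map E.subtype).eval (x.1 : M) = E.subtype (q.eval (vE x)) := by
        rw [← eval_map_apply]
        rfl
      rw [h2, h1]
      rfl
  rw [heq, coeff_map]
  exact (q.coeff i).2

/-- transfer of an inseparable polynomial and a finite stable set to `K'` -/
lemma exists_transfer (p : ℕ) [Fact p.Prime] (k : Type v) (K : Type u) [Field k] [CharP k p]
    [Field K] [Algebra k K] (K' : Type*) [Field K'] (j : K →+* K') (M : Type w)
    [Field M] [Algebra k M] [Algebra K M] [IsScalarTower k K M] [IsPurelyInseparable K M]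
    (f : M[X]) (hf : derivative f = 0) (R : Finset M) (hR : ∀ x ∈ R, f.eval x ∈ R) :
    ∃ (N : ℕ) (g : M → K) (f' g' : K'[X]), f' = expand K' p g' ∧ f'.natDegree = f.natDegree ∧
      (∀ x ∈ R, algebraMap K M (g x) = x ^ p ^ N) ∧ Set.InjOn g R ∧
      ∀ x ∈ R, f'.eval (j (g x)) = j (g (f.eval x)) := by
  classical
  have hp := (Fact.out : p.Prime)
  have : CharP M p := charP_of_injective_algebraMap (algebraMap k M).injective p
  have : CharP K p := charP_of_injective_algebraMap (algebraMap k K).injective p
  have : CharP K' p := charP_of_injective_ringHom j.injective p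
  have h1 : ∀ x : M, ∃ n : ℕ, x ^ p ^ n ∈ (algebraMap K M).range := fun x =>
    IsPurelyInseparable.pow_mem K p x
  choose ν hν using h1
  set s := R ∪ f.support.image f.coeff with hs
  set N := s.sup ν with hN
  have h2 : ∀ x ∈ s, ∃ y : K, algebraMap K M y = x ^ p ^ N := by
    intro x hx
    obtain ⟨y, hy⟩ := hν x
    refine ⟨y ^ p ^ (N - ν x), ?_⟩
    rw [map_pow, hy, ← pow_mul, ← pow_add, Nat.add_sub_cancel' (Finset.le_sup (f := ν) hx)]
  have h3 : ∀ x : M, ∃ y : K, x ∈ s → algebraMap K M y = x ^ p ^ N := by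
    intro x
    by_cases hx : x ∈ s
    · obtain ⟨y, hy⟩ := h2 x hx
      exact ⟨y, fun _ => hy⟩
    · exact ⟨0, fun h => absurd h hx⟩
  choose g hg using h3
  have hRs : ∀ x ∈ R, x ∈ s := fun x hx => Finset.mem_union_left _ hx
  -- the polynomial over `K`
  obtain ⟨fK, hfK⟩ : ∃ fK : K[X], fK.map (algebraMap K M) = f.map (iterateFrobenius M p N) := by
    have : f.map (iterateFrobenius M p N) ∈ lifts (algebraMap K M) := by
      rw [lifts_iff_coeff_lifts]
      intro n
      rw [coeff_map, iterateFrobenius_def]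
      by_cases h0 : f.coeff n = 0
      · rw [h0, zero_pow (pow_pos hp.pos N).ne']
        exact ⟨0, map_zero _⟩
      · obtain ⟨y, hy⟩ := h2 (f.coeff n) (Finset.mem_union_right _
          (Finset.mem_image_of_mem _ (mem_support_iff.mpr h0)))
        exact ⟨y, hy⟩
    rwa [mem_lifts] at this
  have hder : derivative fK = 0 := by
    apply map_injective (algebraMap K M) (algebraMap K M).injective
    rw [← derivative_map, hfK, derivative_map, hf, Polynomial.map_zero, Polynomial.map_zero]
  have hder' : derivative (fK.map j) = 0 := by rw [derivative_map, hder, Polynomial.map_zero]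
  refine ⟨N, g, fK.map j, contract p (fK.map j), (expand_contract p hder' hp.ne_zero).symm, ?_,
    fun x hx => hg x (hRs x hx), ?_, ?_⟩
  · rw [natDegree_map_eq_of_injective j.injective,
      ← natDegree_map_eq_of_injective (algebraMap K M).injective fK, hfK,
      natDegree_map_eq_of_injective (iterateFrobenius M p N).injective]
  · intro x hx y hy hxy
    have h5 := hg x (hRs x hx)
    rw [hxy, hg y (hRs y hy)] at h5
    have h6 : (x - y) ^ p ^ N = 0 := by rw [sub_pow_char_pow, h5, sub_self]
    exact sub_eq_zero.mp (pow_eq_zero_iff (pow_pos hp.pos N).ne' |>.mp h6)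
  · intro x hx
    rw [eval_map_apply]
    congr 1
    apply (algebraMap K M).injective
    rw [hg _ (hRs _ (hR x hx)), ← eval_map_apply, hfK, hg x (hRs x hx), ← iterateFrobenius_def,
      eval_map_apply, iterateFrobenius_def]

theorem fin : S_GLO.{u} → S_DES.{u} → S_FIN.{u, v, w} := by
  classical
  intro hGLO hDES p _ k K _ _ _ _ t ht hfin d hd
  have hp := (Fact.out : p.Prime)
  obtain ⟨k', K', i1, i2, i3, i4, i5, Q, j, hj, -⟩ :=
    Pool.Agent.P8H52.UI.red Pool.Agent.P8H52.UI.ex Pool.Agent.P8H52.UI.rat p k K t ht hfin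
  have hK' : CharP K' p := charP_of_injective_algebraMap (algebraMap k' K').injective p
  obtain ⟨B₀, hB₀⟩ := hGLO p d Q.T hd
  set B := max B₀ (d + 1) with hBdef
  have hdes := hDES p d B hd (le_max_right _ _) k' K' Q
    (fun f g hfg hfd Z hZ hBZ => hB₀ k' K' Q rfl f g hfg hfd Z hZ ((le_max_left _ _).trans hBZ))
  refine ⟨B, ?_⟩
  intro M _ _ _ _ _ f hfd hder hiso
  have hM : CharP M p := charP_of_injective_algebraMap (algebraMap k M).injective p
  -- finite stable sets
  have key : ∀ R : Finset M, (∀ x ∈ R, f.eval x ∈ R) → R.card ≤ B := by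
    intro R hR
    by_contra hcon
    push Not at hcon
    obtain ⟨N, g, f', g', hfg, hfd', hg, hinj, hev⟩ := exists_transfer p k K K' j M f hder R hR
    have hZc : (R.image fun x => j (g x)).card = R.card :=
      Finset.card_image_of_injOn fun x hx y hy hxy => hinj hx hy (j.injective hxy)
    have hrat := hdes f' g' hfg (hfd'.trans hfd) (R.image fun x => j (g x)) (by
      intro z hz
      obtain ⟨x, hx, rfl⟩ := Finset.mem_image.mp hz
      rw [hev x hx]
      exact Finset.mem_image_of_mem _ (hR x hx)) (by rw [hZc]; exact hcon.le)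
    have hR2 : 1 < R.card := by
      have : d + 1 ≤ B := le_max_right _ _
      omega
    obtain ⟨x₀, hx₀, z₀, hz₀, hxz⟩ := Finset.one_lt_card.mp hR2
    have hz0 : z₀ - x₀ ≠ 0 := sub_ne_zero.mpr (Ne.symm hxz)
    -- all ratios are algebraic over `k`
    have halg : ∀ y ∈ R, IsAlgebraic k ((y - x₀) / (z₀ - x₀)) := by
      intro y hy
      by_cases hyx : y = x₀
      · rw [hyx, sub_self, zero_div]
        exact isAlgebraic_zero
      by_cases hyz : y = z₀
      · rw [hyz, div_self hz0]
        exact isAlgebraic_one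
      have hne : ∀ a ∈ R, ∀ b ∈ R, a ≠ b → j (g a) ≠ j (g b) :=
        fun a ha b hb hab e => hab (hinj ha hb (j.injective e))
      obtain ⟨c, hc⟩ := hrat _ (Finset.mem_image_of_mem _ hx₀) _ (Finset.mem_image_of_mem _ hy) _
        (Finset.mem_image_of_mem _ hz₀) (hne _ hx₀ _ hy (Ne.symm hyx)) (hne _ hx₀ _ hz₀ hxz)
        (hne _ hy _ hz₀ hyz)
      rw [← map_sub, ← map_sub, ← map_div₀] at hc
      have h1 : IsAlgebraic k ((g x₀ - g y) / (g x₀ - g z₀)) := by
        by_contra htr
        exact hj _ htr c hc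
      have h2 : IsAlgebraic k (algebraMap K M ((g x₀ - g y) / (g x₀ - g z₀))) := h1.algebraMap
      rw [map_div₀, map_sub, map_sub, hg x₀ hx₀, hg y hy, hg z₀ hz₀, ← sub_pow_char_pow,
        ← sub_pow_char_pow, ← div_pow] at h2
      have h3 : IsAlgebraic k ((x₀ - y) / (x₀ - z₀)) :=
        IsAlgebraic.of_pow (pow_pos hp.pos N) h2
      have h4 : (y - x₀) / (z₀ - x₀) = (x₀ - y) / (x₀ - z₀) := by
        rw [← neg_sub x₀ y, ← neg_sub x₀ z₀, neg_div_neg_eq]
      rw [h4]
      exact h3
    apply hiso
    refine ⟨z₀ - x₀, x₀, hz0, ?_⟩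
    intro i
    set E : Subfield M := (algebraicClosure k M).toSubfield with hE
    have hmem : ∀ x : M, x ∈ E ↔ IsAlgebraic k x := fun x => mem_algebraicClosure_iff
    set φ : M → M := fun y => (y - x₀) / (z₀ - x₀) with hφ
    have hφinj : Set.InjOn φ (R : Set M) := by
      intro a _ b _ hab
      simp only [hφ] at hab
      have := (div_left_inj' hz0).mp hab
      exact sub_left_injective this
    have hφc : (R.image φ).card = R.card := Finset.card_image_of_injOn hφinj
    rw [← hmem]
    apply coeff_mem_of_eval_mem E _ (R.image φ)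
    · intro x hx
      obtain ⟨y, hy, rfl⟩ := Finset.mem_image.mp hx
      exact (hmem _).mpr (halg y hy)
    · rw [hφc]
      have h1 : (C (z₀ - x₀)⁻¹ * (f.comp (C (z₀ - x₀) * X + C x₀) - C x₀)).natDegree ≤ d := by
        refine (natDegree_C_mul_le _ _).trans ?_
        refine (natDegree_sub_le _ _).trans ?_
        rw [natDegree_C, natDegree_comp]
        have h2 : (C (z₀ - x₀) * X + C x₀ : M[X]).natDegree ≤ 1 := natDegree_linear_le
        apply max_le _ (Nat.zero_le _)
        calc f.natDegree * _ ≤ f.natDegree * 1 := by gcongr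
          _ = d := by rw [mul_one, hfd]
      have h2 : d + 1 ≤ B := le_max_right _ _
      omega
    · intro x hx
      obtain ⟨y, hy, rfl⟩ := Finset.mem_image.mp hx
      have h1 : (C (z₀ - x₀)⁻¹ * (f.comp (C (z₀ - x₀) * X + C x₀) - C x₀)).eval (φ y) =
          (f.eval y - x₀) / (z₀ - x₀) := by
        simp only [hφ, eval_mul, eval_C, eval_sub, eval_comp, eval_add, eval_X]
        rw [mul_div_cancel₀ _ hz0, sub_add_cancel, div_eq_inv_mul]
      rw [h1]
      exact (hmem _).mpr (halg _ (hR y hy))
  -- sets of preperiodic points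
  have key2 : ∀ s : Finset M,
      (∀ x ∈ s, (Set.range fun n : ℕ => (fun z : M => f.eval z)^[n] x).Finite) → s.card ≤ B := by
    intro s hs
    obtain ⟨R, hsR, hR, -⟩ := Pool.Agent.P8H29.UI.exists_closure (fun z : M => f.eval z) s hs
    exact (Finset.card_le_card hsR).trans (key R hR)
  by_contra hcon
  push Not at hcon
  have h1 : ((B + 1 : ℕ) : ℕ∞) ≤
      {x : M | (Set.range fun n : ℕ => (fun z : M => f.eval z)^[n] x).Finite}.encard := by
    push_cast
    exact Order.add_one_le_of_lt hcon
  obtain ⟨s, hs1, hs2⟩ := Set.exists_subset_encard_eq h1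
  have hsf : s.Finite := Set.finite_of_encard_eq_coe hs2
  have h2 := key2 hsf.toFinset (fun x hx => hs1 (by simpa using hx))
  rw [hsf.encard_eq_coe_toFinset_card] at hs2
  have h3 : hsf.toFinset.card = B + 1 := by exact_mod_cast hs2
  omega

end Pool.Agent.P8H67.IU
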