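import Pool.Agent.P8H67.IU.Glo3

/-!
# Project IU, package GLO
-/

set_option autoImplicit false

namespace Pool.Agent.P8H67.IU

open Polynomial Finset
open Pool.Agent.P8H29.UI (PC)

universe u

lemma exists_t (p n : ℕ) (hp : 2 ≤ p) (T' T₁ c : ℝ) (hT' : 0 ≤ T') (hT₁ : 1 ≤ T₁) (hc : 0 < c) :
    ∃ t : ℕ, (T₁ + 1) * (1 / (p : ℝ) ^ (t + n) + 1 / (p : ℝ) ^ t) + 6 / (p : ℝ) ^ (t + n) ≤ c / 4 ∧
      6 * (2 * T' / c) / (p : ℝ) ^ (t + n) < 1 := by
  set K₀ : ℝ := max ((2 * (T₁ + 1) + 6) * 4 / c) (6 * (2 * T' / c) + 1) with hK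
  obtain ⟨t, ht⟩ := pow_unbounded_of_one_lt K₀ (by norm_num : (1 : ℝ) < 2)
  have hp2 : (2 : ℝ) ≤ p := by exact_mod_cast hp
  have h1 : K₀ ≤ (p : ℝ) ^ t := ht.le.trans (by gcongr)
  have h2 : (p : ℝ) ^ t ≤ (p : ℝ) ^ (t + n) := by
    apply pow_le_pow_right₀ (by linarith) (by omega)
  have hKa : (2 * (T₁ + 1) + 6) * 4 / c ≤ K₀ := le_max_left _ _
  have hKb : 6 * (2 * T' / c) + 1 ≤ K₀ := le_max_right _ _
  have hK0 : 0 < K₀ := by
    have : 0 ≤ 6 * (2 * T' / c) := by positivity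
    linarith
  have h3 : 1 / (p : ℝ) ^ (t + n) ≤ 1 / K₀ := one_div_le_one_div_of_le hK0 (h1.trans h2)
  have h4 : 1 / (p : ℝ) ^ t ≤ 1 / K₀ := one_div_le_one_div_of_le hK0 h1
  refine ⟨t, ?_, ?_⟩
  · have h5 : (2 * (T₁ + 1) + 6) * (1 / K₀) ≤ c / 4 := by
      rw [mul_one_div, div_le_iff₀ hK0]
      rw [div_le_iff₀ hc] at hKa
      linarith
    calc _ = (T₁ + 1) * (1 / (p : ℝ) ^ (t + n) + 1 / (p : ℝ) ^ t)
          + 6 * (1 / (p : ℝ) ^ (t + n)) := by ring
      _ ≤ (T₁ + 1) * (1 / K₀ + 1 / K₀) + 6 * (1 / K₀) := by gcongr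
      _ = (2 * (T₁ + 1) + 6) * (1 / K₀) := by ring
      _ ≤ c / 4 := h5
  · have hpos : 0 < (p : ℝ) ^ (t + n) := by positivity
    rw [div_lt_one hpos]
    have := h1.trans h2
    linarith

lemma fibre_card {K : Type u} [Field K] (f : K[X]) (d : ℕ) (hd : 2 ≤ d) (hf : f.natDegree = d)
    (m : ℕ) (b : K) (S : Finset K) (hS : ∀ z ∈ S, (fun z => f.eval z)^[m] z = b) :
    S.card ≤ d ^ m := by
  classical
  set h : K[X] := (f.comp)^[m] X - C b with hh
  have hdeg : ((f.comp)^[m] X).natDegree = d ^ m := by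
    rw [natDegree_iterate_comp, hf, natDegree_X, mul_one]
  have hpos : 0 < d ^ m := by positivity
  have hh0 : h ≠ 0 := by
    intro e
    have e2 : (f.comp)^[m] X = C b := sub_eq_zero.mp e
    rw [e2, natDegree_C] at hdeg
    omega
  have h1 : S ⊆ h.roots.toFinset := by
    intro z hz
    rw [Multiset.mem_toFinset, mem_roots hh0, IsRoot.def, hh, eval_sub, eval_C, iterate_comp_eval,
      eval_X, hS z hz, sub_self]
  calc S.card ≤ h.roots.toFinset.card := Finset.card_le_card h1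
    _ ≤ h.roots.card := Multiset.toFinset_card_le _
    _ ≤ h.natDegree := card_roots' h
    _ ≤ d ^ m := by
      rw [hh]
      refine (natDegree_sub_le _ _).trans ?_
      rw [hdeg, natDegree_C]
      simp

theorem glo : S_VL.{u} → S_MAS.{u} → S_CHO.{u} → S_GLO.{u} := by
  classical
  intro hVL hMAS hCHO p _ d T hd
  have hp2 : 2 ≤ p := (Fact.out : p.Prime).two_le
  have hT'0 : (0 : ℝ) ≤ max (T : ℝ) 0 := le_max_right _ _
  obtain ⟨n, N₀, T₁, c, hn, hT₁, hc, hVL'⟩ := hVL p d (max (T : ℝ) 0 + 2) hd (by positivity)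
  obtain ⟨t, ht1, ht2⟩ := exists_t p n hp2 (max (T : ℝ) 0) T₁ c hT'0 hT₁ hc
  set η : ℝ := min (c / 8) (1 / 2) with hη
  have hη0 : 0 < η := by
    rw [hη]; positivity
  obtain ⟨B, hB⟩ := hCHO (d ^ (t + n)) (max N₀ 1) η hη0
  refine ⟨B, ?_⟩
  intro k K _ _ _ _ _ Q hQT f g hfg hfd Z hZ hBZ x hx y hy z hz hxy hxz hyz
  by_contra hcon
  have hf0 : f ≠ 0 := by
    rintro rfl
    rw [natDegree_zero] at hfd
    omega
  set F₁ : K → K := fun z => f.eval z with hF₁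
  have hit : ∀ m : ℕ, ∀ z ∈ Z, F₁^[m] z ∈ Z := by
    intro m
    induction m with
    | zero => intro z hz; exact hz
    | succ m ih => intro z hz; rw [Function.iterate_succ_apply']; exact hZ _ (ih z hz)
  obtain ⟨l₀, hl₀, Y, hYZ, hl₀Y, hYN, hinj, hbad⟩ := hB K ((frobenius K p).fieldRange) Z
    (F₁^[t + n]) (hit _) (by
      intro b _
      exact fibre_card f d hd hfd (t + n) b _ (fun z hz => (Finset.mem_filter.mp hz).2))
    ⟨x, hx, y, hy, z, hz, hxy, hxz, hyz, by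
      intro h
      rw [RingHom.mem_fieldRange] at h
      obtain ⟨w, hw⟩ := h
      exact hcon ⟨w, by rw [← frobenius_def, hw]⟩⟩ hBZ
  obtain ⟨r, hr0, hrf, hle, hstep, hloc⟩ := hVL' k K Q f g hfg hfd Z ⟨x, hx⟩ hZ
  have hN₀ : N₀ ≤ Y.card := (le_max_left _ _).trans hYN
  have hY1 : 1 ≤ Y.card := (le_max_right _ _).trans hYN
  have ha : f.leadingCoeff ≠ 0 := leadingCoeff_ne_zero.mpr hf0
  -- the places
  set U : Finset Q.Pl := hrf.toFinset ∪ (Q.fin _ ha).toFinset ∪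
    (Z ×ˢ Z).biUnion fun w => if h : w.1 = w.2 then ∅ else
      (Q.fin (w.1 - w.2) (sub_ne_zero.mpr h)).toFinset with hU
  have H : Glob Q f.leadingCoeff d Z F₁ U r := by
    refine ⟨hp2, hd, ha, hZ, hr0, ?_, ?_, ?_, hle, hstep⟩
    · intro v hv
      by_contra h
      apply hv
      rw [hU, Finset.mem_union, Finset.mem_union]
      exact Or.inl (Or.inl (by simpa using h))
    · intro v hv
      by_contra h
      apply hv
      rw [hU, Finset.mem_union, Finset.mem_union]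
      exact Or.inl (Or.inr (by simpa using h))
    · intro v hv x hx y hy hxy
      by_contra h
      apply hv
      rw [hU, Finset.mem_union]
      refine Or.inr (Finset.mem_biUnion.mpr ⟨(x, y), Finset.mem_product.mpr ⟨hx, hy⟩, ?_⟩)
      rw [dif_neg hxy]
      simpa using h
  have hinjn : Set.InjOn (F₁^[n]) (Y : Set K) := by
    intro a ha b hb hab
    apply hinj (Or.inr ha) (Or.inr hb)
    rw [Function.iterate_add_apply, Function.iterate_add_apply, hab]
  subst hQT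
  refine H.contra hMAS hYZ hl₀ hl₀Y hY1 (n := n) (t := t) (T₁ := T₁) (c := c) (η := η) hT₁ hc hinj
    ?_ ?_ (min_le_left _ _) (min_le_right _ _) ht1 ht2
  · intro v
    exact hloc v Y hYZ hN₀ hinjn l₀ hl₀ hl₀Y
  · convert hbad using 4

end Pool.Agent.P8H67.IU
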