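import Pool.Agent.P8H67.IU.Stm

/-!
# Project IU, package GLO, part 1: sums over the places
-/

set_option autoImplicit false

namespace Pool.Agent.P8H67.IU

open Polynomial Finset
open Pool.Agent.P8H29.UI (PC)

universe u

variable {p : ℕ} {k K : Type u} [Field k] [Field K] [Algebra k K]

/-- `ord (-x) = ord x` -/
lemma ordneg (Q : PC.{u, u, u} p k K) (v : Q.Pl) {x : K} (hx : x ≠ 0) :
    Q.ord v (-x) = Q.ord v x := by
  have h1 : Q.ord v (1 : K) = 0 := by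
    have := Q.ord_mul v 1 1 one_ne_zero one_ne_zero
    rw [mul_one] at this; omega
  have h2 : Q.ord v (-1 : K) = 0 := by
    have := Q.ord_mul v (-1) (-1) (by simp) (by simp)
    rw [neg_mul_neg, mul_one, h1] at this; omega
  have h3 := Q.ord_mul v (-1) x (by simp) hx
  rw [neg_one_mul, h2] at h3
  omega

/-- data for the global estimate -/
structure Glob (Q : PC.{u, u, u} p k K) (a : K) (d : ℕ) (Z : Finset K) (F₁ : K → K)
    (U : Finset Q.Pl) (r : Q.Pl → ℝ) : Prop where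
  hp : 2 ≤ p
  hd : 2 ≤ d
  ha : a ≠ 0
  maps : ∀ z ∈ Z, F₁ z ∈ Z
  r0 : ∀ v, 0 ≤ r v
  rU : ∀ v, v ∉ U → r v = 0
  aU : ∀ v, v ∉ U → Q.ord v a = 0
  zU : ∀ v, v ∉ U → ∀ x ∈ Z, ∀ y ∈ Z, x ≠ y → Q.ord v (x - y) = 0
  le : ∀ v, ∀ x ∈ Z, ∀ y ∈ Z, dl Q a d v x y ≤ r v
  step : ∀ v, ∀ x ∈ Z, ∀ y ∈ Z, x ≠ y → F₁ x ≠ F₁ y →
      dl Q a d v (F₁ x) (F₁ y) ≤ p * dl Q a d v x y + ((d : ℝ) - p) * r v

variable {Q : PC.{u, u, u} p k K} {a : K} {d : ℕ} {Z : Finset K} {F₁ : K → K}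
    {U : Finset Q.Pl} {r : Q.Pl → ℝ}

/-- weight of `r` -/
noncomputable def rho (Q : PC.{u, u, u} p k K) (U : Finset Q.Pl) (r : Q.Pl → ℝ) : ℝ :=
  ∑ v ∈ U, (Q.wt v : ℝ) * r v

lemma wtpos (v : Q.Pl) : (1 : ℝ) ≤ (Q.wt v : ℝ) := by exact_mod_cast Q.wt_one v

lemma Glob.sum_dl (H : Glob Q a d Z F₁ U r) {x y : K} (hx : x ∈ Z) (hy : y ∈ Z) :
    ∑ v ∈ U, (Q.wt v : ℝ) * dl Q a d v x y = 0 := by
  by_cases h : x = y
  · simp [dl, h]
  · have h1 := Q.sum (x - y) (sub_ne_zero.mpr h) U (fun v hv => H.zU v hv x hx y hy h)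
    have h2 := Q.sum a H.ha U H.aU
    have h1' : ∑ v ∈ U, (Q.wt v : ℝ) * (Q.ord v (x - y) : ℝ) = 0 := by exact_mod_cast h1
    have h2' : ∑ v ∈ U, (Q.wt v : ℝ) * (Q.ord v a : ℝ) = 0 := by exact_mod_cast h2
    have e : ∀ v, (Q.wt v : ℝ) * dl Q a d v x y = -((Q.wt v : ℝ) * (Q.ord v (x - y) : ℝ))
        - ((Q.wt v : ℝ) * (Q.ord v a : ℝ)) / ((d : ℝ) - 1) := by
      intro v
      simp only [dl, if_neg h]
      ring
    simp only [e, Finset.sum_sub_distrib, Finset.sum_neg_distrib, h1', ← Finset.sum_div, h2']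
    simp

lemma Glob.er_le (H : Glob Q a d Z F₁ U r) (v : Q.Pl) {x y : K} (hx : x ∈ Z) (hy : y ∈ Z) :
    er (dl Q a d v) d (r v) x y ≤ r v - dl Q a d v x y := by
  have h1 := H.le v x hx y hy
  have h2 := H.r0 v
  have h3 : (0 : ℝ) ≤ (d : ℝ) * r v := by positivity
  unfold er
  apply max_le <;> linarith

lemma er_nonneg {α : Type u} (δ : α → α → ℝ) (d : ℕ) (r : ℝ) (x y : α) : 0 ≤ er δ d r x y :=
  le_max_left _ _

lemma Glob.sum_er (H : Glob Q a d Z F₁ U r) {x y : K} (hx : x ∈ Z) (hy : y ∈ Z) :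
    ∑ v ∈ U, (Q.wt v : ℝ) * er (dl Q a d v) d (r v) x y ≤ rho Q U r := by
  have h : ∀ v ∈ U, (Q.wt v : ℝ) * er (dl Q a d v) d (r v) x y ≤
      (Q.wt v : ℝ) * r v - (Q.wt v : ℝ) * dl Q a d v x y := by
    intro v _
    have h1 := H.er_le v hx hy
    have h2 := wtpos (Q := Q) v
    nlinarith
  refine (Finset.sum_le_sum h).trans ?_
  rw [Finset.sum_sub_distrib, H.sum_dl hx hy, sub_zero]
  exact le_refl _

lemma Glob.er_step (H : Glob Q a d Z F₁ U r) (v : Q.Pl) {x y : K} (hx : x ∈ Z) (hy : y ∈ Z)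
    (h : F₁ x ≠ F₁ y) : p * er (dl Q a d v) d (r v) x y ≤ er (dl Q a d v) d (r v) (F₁ x) (F₁ y) := by
  have hxy : x ≠ y := fun e => h (by rw [e])
  have h1 := H.step v x hx y hy hxy h
  have h2 := H.r0 v
  have hp : (2 : ℝ) ≤ p := by exact_mod_cast H.hp
  have hd : (2 : ℝ) ≤ d := by exact_mod_cast H.hd
  unfold er
  rcases le_total 0 (-(d * r v) - dl Q a d v x y) with h3 | h3
  · rw [max_eq_right h3]
    apply le_max_of_le_right
    have h4 : 0 ≤ (p : ℝ) * r v := by positivity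
    nlinarith [mul_nonneg (mul_nonneg (by linarith : (0 : ℝ) ≤ d) (by linarith : (0 : ℝ) ≤ (p : ℝ) - 2)) h2]
  · rw [max_eq_left h3, mul_zero]
    exact le_max_left _ _

lemma Glob.iter_mem (H : Glob Q a d Z F₁ U r) {x : K} (hx : x ∈ Z) (n : ℕ) : F₁^[n] x ∈ Z := by
  induction n with
  | zero => exact hx
  | succ n ih => rw [Function.iterate_succ_apply']; exact H.maps _ ih

lemma Glob.er_iter (H : Glob Q a d Z F₁ U r) (v : Q.Pl) (n : ℕ) {x y : K} (hx : x ∈ Z)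
    (hy : y ∈ Z) (h : F₁^[n] x ≠ F₁^[n] y) :
    (p : ℝ) ^ n * er (dl Q a d v) d (r v) x y ≤
      er (dl Q a d v) d (r v) (F₁^[n] x) (F₁^[n] y) := by
  induction n with
  | zero => simp
  | succ n ih =>
    have h1 : F₁^[n] x ≠ F₁^[n] y := by
      intro e
      apply h
      rw [Function.iterate_succ_apply', Function.iterate_succ_apply', e]
    have h2 := ih h1
    rw [Function.iterate_succ_apply', Function.iterate_succ_apply'] at h ⊢
    have h3 := H.er_step v (H.iter_mem hx n) (H.iter_mem hy n) h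
    have hp : (0 : ℝ) ≤ p := by positivity
    calc (p : ℝ) ^ (n + 1) * er (dl Q a d v) d (r v) x y
        = p * ((p : ℝ) ^ n * er (dl Q a d v) d (r v) x y) := by ring
      _ ≤ p * er (dl Q a d v) d (r v) (F₁^[n] x) (F₁^[n] y) := by gcongr
      _ ≤ _ := h3

/-- the sum of the defects of a pair which stays different for `m + n` steps, after `m` steps -/
lemma Glob.sum_er_iter (H : Glob Q a d Z F₁ U r) (m n : ℕ) {x y : K} (hx : x ∈ Z)
    (hy : y ∈ Z) (h : F₁^[n + m] x ≠ F₁^[n + m] y) :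
    ∑ v ∈ U, (Q.wt v : ℝ) * er (dl Q a d v) d (r v) (F₁^[m] x) (F₁^[m] y) ≤
      rho Q U r / (p : ℝ) ^ n := by
  have hp : (0 : ℝ) < (p : ℝ) ^ n := by
    have : 0 < p := by have := H.hp; omega
    positivity
  rw [le_div_iff₀ hp, mul_comm, Finset.mul_sum]
  have hx' := H.iter_mem hx m
  have hy' := H.iter_mem hy m
  rw [Function.iterate_add_apply, Function.iterate_add_apply] at h
  refine le_trans ?_ (H.sum_er (H.iter_mem hx' n) (H.iter_mem hy' n))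
  apply Finset.sum_le_sum
  intro v _
  have h1 := H.er_iter v n hx' hy' h
  have h2 := wtpos (Q := Q) v
  calc (p : ℝ) ^ n * ((Q.wt v : ℝ) * er (dl Q a d v) d (r v) (F₁^[m] x) (F₁^[m] y))
      = (Q.wt v : ℝ) * ((p : ℝ) ^ n * er (dl Q a d v) d (r v) (F₁^[m] x) (F₁^[m] y)) := by ring
    _ ≤ _ := by gcongr

end Pool.Agent.P8H67.IU
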