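import Pool.Agent.P8H67.IU.Glo1

/-!
# Project IU, package GLO, part 2: the inequality of Mason and Stothers for a triple of points
-/

set_option autoImplicit false

namespace Pool.Agent.P8H67.IU

open Polynomial Finset
open Pool.Agent.P8H29.UI (PC)

universe u

variable {p : ℕ} {k K : Type u} [Field k] [Field K] [Algebra k K]
variable {Q : PC.{u, u, u} p k K} {a : K} {d : ℕ} {Z : Finset K} {F₁ : K → K}
    {U : Finset Q.Pl} {r : Q.Pl → ℝ}

/-- total weight of the places with large `r` -/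
noncomputable def ss (Q : PC.{u, u, u} p k K) (U : Finset Q.Pl) (r : Q.Pl → ℝ) (d : ℕ) : ℝ :=
  ∑ v ∈ U, if 1 ≤ 2 * ((d : ℝ) + 1) * r v then (Q.wt v : ℝ) else 0

lemma Glob.Mx_le (H : Glob Q a d Z F₁ U r) (v : Q.Pl) {x y l : K} (hx : x ∈ Z) (hy : y ∈ Z)
    (hl : l ∈ Z) : Mx (dl Q a d v) l x y ≤ r v :=
  max_le (H.le v x hx y hy) (max_le (H.le v x hx l hl) (H.le v y hy l hl))

lemma Glob.sum_Mx_le (H : Glob Q a d Z F₁ U r) {x y l : K} (hx : x ∈ Z) (hy : y ∈ Z)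
    (hl : l ∈ Z) : ∑ v ∈ U, (Q.wt v : ℝ) * Mx (dl Q a d v) l x y ≤ rho Q U r := by
  apply Finset.sum_le_sum
  intro v _
  have h1 := H.Mx_le v hx hy hl
  have h2 := wtpos (Q := Q) v
  gcongr

/-- at a place where the three distances are not equal -/
lemma Glob.not_equal (H : Glob Q a d Z F₁ U r) (v : Q.Pl) {x y l : K} (hx : x ∈ Z) (hy : y ∈ Z)
    (hl : l ∈ Z) (hxy : x ≠ y) (hxl : x ≠ l) (hyl : y ≠ l)
    (h : ¬ (Q.ord v (x - y) = Q.ord v (y - l) ∧ Q.ord v (y - l) = Q.ord v (l - x)))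
    (hr : ¬ 1 ≤ 2 * ((d : ℝ) + 1) * r v) :
    1 ≤ 2 * (er (dl Q a d v) d (r v) x y + er (dl Q a d v) d (r v) x l
      + er (dl Q a d v) d (r v) y l) := by
  have e1 := ordneg Q v (sub_ne_zero.mpr hxl)
  rw [neg_sub] at e1
  have hd : (2 : ℝ) ≤ d := by exact_mod_cast H.hd
  have h0 := H.r0 v
  have hdr : (d : ℝ) * r v + r v ≤ 1 / 2 := by nlinarith
  have b1 := H.le v x hx y hy
  have b2 := H.le v x hx l hl
  have b3 := H.le v y hy l hl
  have n1 := er_nonneg (dl Q a d v) d (r v) x y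
  have n2 := er_nonneg (dl Q a d v) d (r v) x l
  have n3 := er_nonneg (dl Q a d v) d (r v) y l
  have m1 : -(d * r v) - dl Q a d v x y ≤ er (dl Q a d v) d (r v) x y := le_max_right _ _
  have m2 : -(d * r v) - dl Q a d v x l ≤ er (dl Q a d v) d (r v) x l := le_max_right _ _
  have m3 : -(d * r v) - dl Q a d v y l ≤ er (dl Q a d v) d (r v) y l := le_max_right _ _
  simp only [dl, if_neg hxy, if_neg hxl, if_neg hyl] at *
  rw [e1] at h
  -- some two orders differ by at least one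
  have key : ∀ m n : ℤ, m ≠ n → (m : ℝ) + 1 ≤ n ∨ (n : ℝ) + 1 ≤ m := by
    intro m n hmn
    rcases lt_or_gt_of_ne hmn with h' | h'
    · left; exact_mod_cast h'
    · right; exact_mod_cast h'
  by_cases h1 : Q.ord v (x - y) = Q.ord v (y - l)
  · have h2 : Q.ord v (y - l) ≠ Q.ord v (x - l) := fun e => h ⟨h1, e⟩
    rcases key _ _ h2 with h3 | h3 <;> linarith
  · rcases key _ _ h1 with h3 | h3 <;> linarith

lemma Glob.mason (H : Glob Q a d Z F₁ U r) (hMAS : S_MAS.{u}) [Fact p.Prime] [CharP K p]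
    {x y l : K} (hx : x ∈ Z) (hy : y ∈ Z)
    (hl : l ∈ Z) (hxy : x ≠ y) (hxl : x ≠ l) (hyl : y ≠ l)
    (hnp : ¬ ∃ w : K, w ^ p = (x - l) / (y - l)) :
    (∑ v ∈ U, (Q.wt v : ℝ) * Mx (dl Q a d v) l x y ≤ (Q.T : ℝ) + ss Q U r d
      + 2 * (∑ v ∈ U, (Q.wt v : ℝ) * er (dl Q a d v) d (r v) x y
        + ∑ v ∈ U, (Q.wt v : ℝ) * er (dl Q a d v) d (r v) x l
        + ∑ v ∈ U, (Q.wt v : ℝ) * er (dl Q a d v) d (r v) y l)) ∧
    ((ss Q U r d
      + 2 * (∑ v ∈ U, (Q.wt v : ℝ) * er (dl Q a d v) d (r v) x y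
        + ∑ v ∈ U, (Q.wt v : ℝ) * er (dl Q a d v) d (r v) x l
        + ∑ v ∈ U, (Q.wt v : ℝ) * er (dl Q a d v) d (r v) y l) < 1) →
      ∀ v, Q.ord v (x - l) = Q.ord v (y - l)) := by
  classical
  set S := U.filter fun v =>
    ¬ (Q.ord v (x - y) = Q.ord v (y - l) ∧ Q.ord v (y - l) = Q.ord v (l - x)) with hS
  have hlx : l ≠ x := Ne.symm hxl
  have hnp' : ¬ ∃ w : K, w ^ p = (x - y) / (y - l) := by
    rintro ⟨w, hw⟩
    apply hnp
    refine ⟨w + 1, ?_⟩
    rw [add_pow_char, hw, one_pow]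
    have : y - l ≠ 0 := sub_ne_zero.mpr hyl
    field_simp
    ring
  have hm := hMAS p k K Q (x - y) (y - l) (l - x) (sub_ne_zero.mpr hxy) (sub_ne_zero.mpr hyl)
    (sub_ne_zero.mpr hlx) (by ring) hnp' S U
    (by
      intro v hv
      by_cases hvU : v ∈ U
      · by_contra hcon
        exact hv (Finset.mem_filter.mpr ⟨hvU, hcon⟩)
      · rw [H.zU v hvU x hx y hy hxy, H.zU v hvU y hy l hl hyl, H.zU v hvU l hl x hx hlx]
        exact ⟨rfl, rfl⟩)
    (by
      intro v hv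
      exact ⟨H.zU v hv x hx y hy hxy, H.zU v hv y hy l hl hyl, H.zU v hv l hl x hx hlx⟩)
  have hSb : ∑ v ∈ S, (Q.wt v : ℝ) ≤ ss Q U r d
      + 2 * (∑ v ∈ U, (Q.wt v : ℝ) * er (dl Q a d v) d (r v) x y
        + ∑ v ∈ U, (Q.wt v : ℝ) * er (dl Q a d v) d (r v) x l
        + ∑ v ∈ U, (Q.wt v : ℝ) * er (dl Q a d v) d (r v) y l) := by
    rw [ss, ← Finset.sum_add_distrib, ← Finset.sum_add_distrib, Finset.mul_sum,
      ← Finset.sum_add_distrib]
    refine (Finset.sum_le_sum (g := fun v =>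
      (if 1 ≤ 2 * ((d : ℝ) + 1) * r v then (Q.wt v : ℝ) else 0) +
      2 * ((Q.wt v : ℝ) * er (dl Q a d v) d (r v) x y
        + (Q.wt v : ℝ) * er (dl Q a d v) d (r v) x l
        + (Q.wt v : ℝ) * er (dl Q a d v) d (r v) y l)) ?_).trans
      (Finset.sum_le_sum_of_subset_of_nonneg (Finset.filter_subset _ _) ?_)
    · intro v hv
      rw [hS, Finset.mem_filter] at hv
      have h2 := wtpos (Q := Q) v
      have n1 := er_nonneg (dl Q a d v) d (r v) x y
      have n2 := er_nonneg (dl Q a d v) d (r v) x l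
      have n3 := er_nonneg (dl Q a d v) d (r v) y l
      split_ifs with h
      · have : 0 ≤ 2 * ((Q.wt v : ℝ) * er (dl Q a d v) d (r v) x y
          + (Q.wt v : ℝ) * er (dl Q a d v) d (r v) x l
          + (Q.wt v : ℝ) * er (dl Q a d v) d (r v) y l) := by positivity
        linarith
      · have h3 := H.not_equal v hx hy hl hxy hxl hyl hv.2 h
        have h4 : (Q.wt v : ℝ) * 1 ≤ (Q.wt v : ℝ) * (2 * (er (dl Q a d v) d (r v) x y
          + er (dl Q a d v) d (r v) x l + er (dl Q a d v) d (r v) y l)) := by gcongr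
        linarith
    · intro v _ _
      have h2 := wtpos (Q := Q) v
      have n1 := er_nonneg (dl Q a d v) d (r v) x y
      have n2 := er_nonneg (dl Q a d v) d (r v) x l
      have n3 := er_nonneg (dl Q a d v) d (r v) y l
      split_ifs <;> positivity
  constructor
  · have hm' : ∑ v ∈ U, (Q.wt v : ℝ) * max (-(Q.ord v (x - y) : ℝ))
        (max (-(Q.ord v (y - l) : ℝ)) (-(Q.ord v (l - x) : ℝ))) ≤ (Q.T : ℝ) +
        ∑ v ∈ S, (Q.wt v : ℝ) := by exact_mod_cast hm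
    have h2 := Q.sum a H.ha U H.aU
    have h2' : ∑ v ∈ U, (Q.wt v : ℝ) * (Q.ord v a : ℝ) = 0 := by exact_mod_cast h2
    have e : ∀ v, (Q.wt v : ℝ) * Mx (dl Q a d v) l x y =
        (Q.wt v : ℝ) * max (-(Q.ord v (x - y) : ℝ))
        (max (-(Q.ord v (y - l) : ℝ)) (-(Q.ord v (l - x) : ℝ)))
        - ((Q.wt v : ℝ) * (Q.ord v a : ℝ)) / ((d : ℝ) - 1) := by
      intro v
      have e1 := ordneg Q v (sub_ne_zero.mpr hxl)
      rw [neg_sub] at e1
      simp only [Mx, dl, if_neg hxy, if_neg hxl, if_neg hyl, e1]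
      rw [max_sub_sub_right, max_sub_sub_right, max_comm (-(Q.ord v (x - l) : ℝ))]
      ring
    simp only [e, Finset.sum_sub_distrib, ← Finset.sum_div, h2']
    simp only [zero_div, sub_zero]
    linarith
  · intro hlt v
    have hSe : S = ∅ := by
      by_contra hne
      obtain ⟨v, hv⟩ := Finset.nonempty_iff_ne_empty.mpr hne
      have h1 : (1 : ℝ) ≤ ∑ v ∈ S, (Q.wt v : ℝ) := by
        calc (1 : ℝ) ≤ (Q.wt v : ℝ) := wtpos v
          _ ≤ ∑ v ∈ S, (Q.wt v : ℝ) := Finset.single_le_sum (f := fun v => (Q.wt v : ℝ))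
            (fun w _ => by have := wtpos (Q := Q) w; linarith) hv
      linarith
    by_cases hvU : v ∈ U
    · have hv : v ∉ S := by rw [hSe]; exact Finset.notMem_empty v
      rw [hS, Finset.mem_filter] at hv
      push Not at hv
      have h1 := hv hvU
      have e1 := ordneg Q v (sub_ne_zero.mpr hxl)
      rw [neg_sub] at e1
      rw [← e1, h1.2]
    · rw [H.zU v hvU x hx l hl hxl, H.zU v hvU y hy l hl hyl]

end Pool.Agent.P8H67.IU
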