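import Pool.Agent.P8H67.IU.Glo2

/-!
# Project IU, package GLO, part 3: the final inequality
-/

set_option autoImplicit false

namespace Pool.Agent.P8H67.IU

open Polynomial Finset
open Pool.Agent.P8H29.UI (PC)

universe u

variable {p : ℕ} {k K : Type u} [Field k] [Field K] [Algebra k K]
variable {Q : PC.{u, u, u} p k K} {a : K} {d : ℕ} {Z : Finset K} {F₁ : K → K}
    {U : Finset Q.Pl} {r : Q.Pl → ℝ}

lemma Glob.er_self (H : Glob Q a d Z F₁ U r) (v : Q.Pl) (x : K) :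
    er (dl Q a d v) d (r v) x x = 0 := by
  have h := H.r0 v
  have h2 : (0 : ℝ) ≤ d * r v := by positivity
  simp only [er, dl, if_true]
  rw [max_eq_left]
  linarith

lemma Glob.rho_nonneg (H : Glob Q a d Z F₁ U r) : 0 ≤ rho Q U r := by
  apply Finset.sum_nonneg
  intro v _
  have h1 := H.r0 v
  have h2 := wtpos (Q := Q) v
  positivity

lemma ss_nonneg : 0 ≤ ss Q U r d := by
  apply Finset.sum_nonneg
  intro v _
  have h2 := wtpos (Q := Q) v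
  split_ifs <;> positivity

/-- the summed local inequality -/
lemma Glob.summed (H : Glob Q a d Z F₁ U r) {Y : Finset K} (hY : Y ⊆ Z) {l₀ : K} {n : ℕ}
    {A T₁ c : ℝ}
    (hloc : ∀ v, LocIneq (dl Q a d v) (F₁^[n]) Y l₀ d (r v) A T₁ c) :
    c * rho Q U r * (Y.card : ℝ) ^ 2 + A * ss Q U r d * (Y.card : ℝ) ^ 2 ≤
    ∑ x ∈ Y, ∑ y ∈ Y, (∑ v ∈ U, (Q.wt v : ℝ) * Mx (dl Q a d v) l₀ x y
      + (T₁ + 1) * (∑ v ∈ U, (Q.wt v : ℝ) * er (dl Q a d v) d (r v) x y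
      + ∑ v ∈ U, (Q.wt v : ℝ) * er (dl Q a d v) d (r v) (F₁^[n] x) (F₁^[n] y))) := by
  have h1 : ∀ v ∈ U, (Q.wt v : ℝ) * (c * r v * (Y.card : ℝ) ^ 2) +
      A * (if 1 ≤ 2 * ((d : ℝ) + 1) * r v then (Q.wt v : ℝ) else 0) * (Y.card : ℝ) ^ 2 ≤
      (Q.wt v : ℝ) * (∑ x ∈ Y, ∑ y ∈ Y, Mx (dl Q a d v) l₀ x y - T₁ * En (dl Q a d v) Y
      + (T₁ + 1) * (Er (dl Q a d v) d (r v) id Y + Er (dl Q a d v) d (r v) (F₁^[n]) Y)) := by
    intro v _
    have h2 := wtpos (Q := Q) v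
    obtain ⟨h3, h4⟩ := hloc v
    split_ifs with h
    · have h5 := h4 h
      calc _ = (Q.wt v : ℝ) * ((c * r v + A) * (Y.card : ℝ) ^ 2) := by ring
        _ ≤ _ := by gcongr
    · rw [mul_zero, zero_mul, add_zero]
      gcongr
  have h2 := Finset.sum_le_sum h1
  have e1 : ∑ v ∈ U, ((Q.wt v : ℝ) * (c * r v * (Y.card : ℝ) ^ 2) +
      A * (if 1 ≤ 2 * ((d : ℝ) + 1) * r v then (Q.wt v : ℝ) else 0) * (Y.card : ℝ) ^ 2) =
      c * rho Q U r * (Y.card : ℝ) ^ 2 + A * ss Q U r d * (Y.card : ℝ) ^ 2 := by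
    rw [Finset.sum_add_distrib, rho, ss, Finset.mul_sum, Finset.sum_mul, Finset.mul_sum,
      Finset.sum_mul]
    congr 1
    apply Finset.sum_congr rfl
    intro v _
    ring
  rw [e1] at h2
  refine h2.trans (le_of_eq ?_)
  have e2 : ∀ v ∈ U, (Q.wt v : ℝ) * (∑ x ∈ Y, ∑ y ∈ Y, Mx (dl Q a d v) l₀ x y
      - T₁ * En (dl Q a d v) Y
      + (T₁ + 1) * (Er (dl Q a d v) d (r v) id Y + Er (dl Q a d v) d (r v) (F₁^[n]) Y)) =
      ∑ x ∈ Y, ∑ y ∈ Y, ((Q.wt v : ℝ) * Mx (dl Q a d v) l₀ x y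
      - T₁ * ((Q.wt v : ℝ) * dl Q a d v x y)
      + (T₁ + 1) * ((Q.wt v : ℝ) * er (dl Q a d v) d (r v) x y
      + (Q.wt v : ℝ) * er (dl Q a d v) d (r v) (F₁^[n] x) (F₁^[n] y))) := by
    intro v _
    simp only [En, Er, id, Finset.sum_add_distrib, Finset.sum_sub_distrib, ← Finset.mul_sum]
    ring
  rw [Finset.sum_congr rfl e2, Finset.sum_comm]
  apply Finset.sum_congr rfl
  intro x hx
  rw [Finset.sum_comm]
  apply Finset.sum_congr rfl
  intro y hy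
  have h3 := H.sum_dl (hY hx) (hY hy)
  rw [Finset.sum_add_distrib, Finset.sum_sub_distrib, ← Finset.mul_sum, ← Finset.mul_sum, h3,
    Finset.sum_add_distrib]
  ring

open scoped Classical in
lemma Glob.contra (H : Glob Q a d Z F₁ U r) (hMAS : S_MAS.{u}) [Fact p.Prime] [CharP K p]
    [IsAlgClosed k] {Y : Finset K} (hY : Y ⊆ Z) {l₀ : K} (hl₀ : l₀ ∈ Z) (hl₀Y : l₀ ∉ Y)
    (hYn : 1 ≤ Y.card) {n t : ℕ} {T₁ c η : ℝ} (hT₁ : 1 ≤ T₁) (hc : 0 < c)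
    (hinj : Set.InjOn (F₁^[t + n]) (insert l₀ (Y : Set K)))
    (hloc : ∀ v, LocIneq (dl Q a d v) (F₁^[n]) Y l₀ d (r v) (max (Q.T : ℝ) 0 + 2) T₁ c)
    (hbad : ((((Y ×ˢ Y).filter fun w => w.1 = w.2 ∨
      (w.1 - l₀) / (w.2 - l₀) ∈ (frobenius K p).fieldRange).card : ℝ) ≤ η * (Y.card : ℝ) ^ 2))
    (hη1 : η ≤ c / 8) (hη2 : η ≤ 1 / 2)
    (hc1 : (T₁ + 1) * (1 / (p : ℝ) ^ (t + n) + 1 / (p : ℝ) ^ t) + 6 / (p : ℝ) ^ (t + n) ≤ c / 4)
    (hc2 : 6 * (2 * max (Q.T : ℝ) 0 / c) / (p : ℝ) ^ (t + n) < 1) : False := by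
  set T' : ℝ := max (Q.T : ℝ) 0 with hT'
  have hT'0 : 0 ≤ T' := le_max_right _ _
  have hTT : (Q.T : ℝ) ≤ T' := le_max_left _ _
  set ρ := rho Q U r with hρ
  have hρ0 : 0 ≤ ρ := H.rho_nonneg
  set s := ss Q U r d with hs
  have hs0 : 0 ≤ s := ss_nonneg
  have hp0 : (0 : ℝ) < p := by have := H.hp; exact_mod_cast (by omega : 0 < p)
  set P₁ := (p : ℝ) ^ (t + n) with hP₁
  set P₂ := (p : ℝ) ^ t with hP₂
  have hP₁0 : 0 < P₁ := by positivity
  have hP₂0 : 0 < P₂ := by positivity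
  have hNY : (0 : ℝ) < (Y.card : ℝ) ^ 2 := by
    have : (0 : ℝ) < Y.card := by exact_mod_cast hYn
    positivity
  -- bounds for the defects
  have hA2 : ∀ x ∈ insert l₀ (Y : Set K), ∀ y ∈ insert l₀ (Y : Set K),
      ∑ v ∈ U, (Q.wt v : ℝ) * er (dl Q a d v) d (r v) x y ≤ ρ / P₁ := by
    intro x hx y hy
    have hxZ : x ∈ Z := by
      rcases hx with rfl | hx
      · exact hl₀
      · exact hY hx
    have hyZ : y ∈ Z := by
      rcases hy with rfl | hy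
      · exact hl₀
      · exact hY hy
    by_cases hxy : x = y
    · subst hxy
      simp only [H.er_self, mul_zero, Finset.sum_const_zero]
      positivity
    · have h1 := H.sum_er_iter 0 (t + n) hxZ hyZ (by
        rw [add_zero]
        exact fun e => hxy (hinj hx hy e))
      simpa using h1
  have hA3 : ∀ x ∈ Y, ∀ y ∈ Y,
      ∑ v ∈ U, (Q.wt v : ℝ) * er (dl Q a d v) d (r v) (F₁^[n] x) (F₁^[n] y) ≤ ρ / P₂ := by
    intro x hx y hy
    by_cases hxy : x = y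
    · subst hxy
      simp only [H.er_self, mul_zero, Finset.sum_const_zero]
      positivity
    · exact H.sum_er_iter n t (hY hx) (hY hy) (fun e => hxy (hinj (Or.inr hx) (Or.inr hy) e))
  -- good pairs
  have hgood : ∀ x ∈ Y, ∀ y ∈ Y, x ≠ y → (x - l₀) / (y - l₀) ∉ (frobenius K p).fieldRange →
      (∑ v ∈ U, (Q.wt v : ℝ) * Mx (dl Q a d v) l₀ x y ≤ T' + s + 6 * ρ / P₁) ∧
      (s + 6 * ρ / P₁ < 1 → ∀ v, Q.ord v (x - l₀) = Q.ord v (y - l₀)) := by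
    intro x hx y hy hxy hP
    have hxl : x ≠ l₀ := fun e => hl₀Y (e ▸ hx)
    have hyl : y ≠ l₀ := fun e => hl₀Y (e ▸ hy)
    have h1 := H.mason hMAS (hY hx) (hY hy) hl₀ hxy hxl hyl (by
      rintro ⟨w, hw⟩
      apply hP
      rw [RingHom.mem_fieldRange]
      exact ⟨w, by rw [frobenius_def, hw]⟩)
    have b1 := hA2 x (Or.inr hx) y (Or.inr hy)
    have b2 := hA2 x (Or.inr hx) l₀ (Or.inl rfl)
    have b3 := hA2 y (Or.inr hy) l₀ (Or.inl rfl)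
    have e6 : 6 * ρ / P₁ = 2 * (ρ / P₁ + ρ / P₁ + ρ / P₁) := by ring
    refine ⟨?_, fun h => h1.2 ?_⟩
    · refine h1.1.trans ?_
      rw [e6]
      linarith
    · rw [e6] at h
      refine lt_of_le_of_lt ?_ h
      linarith
  -- the sum
  have hsum := H.summed hY hloc
  have hA1 : ∑ x ∈ Y, ∑ y ∈ Y, (∑ v ∈ U, (Q.wt v : ℝ) * Mx (dl Q a d v) l₀ x y
      + (T₁ + 1) * (∑ v ∈ U, (Q.wt v : ℝ) * er (dl Q a d v) d (r v) x y
      + ∑ v ∈ U, (Q.wt v : ℝ) * er (dl Q a d v) d (r v) (F₁^[n] x) (F₁^[n] y))) ≤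
      η * (Y.card : ℝ) ^ 2 * ρ + (Y.card : ℝ) ^ 2 * (T' + s + 6 * ρ / P₁
      + (T₁ + 1) * (ρ / P₁ + ρ / P₂)) := by
    rw [← Finset.sum_product']
    set G := (Y ×ˢ Y).filter fun w => w.1 = w.2 ∨
      (w.1 - l₀) / (w.2 - l₀) ∈ (frobenius K p).fieldRange with hG
    have h1 : ∀ w ∈ Y ×ˢ Y, (∑ v ∈ U, (Q.wt v : ℝ) * Mx (dl Q a d v) l₀ w.1 w.2
      + (T₁ + 1) * (∑ v ∈ U, (Q.wt v : ℝ) * er (dl Q a d v) d (r v) w.1 w.2
      + ∑ v ∈ U, (Q.wt v : ℝ) * er (dl Q a d v) d (r v) (F₁^[n] w.1) (F₁^[n] w.2))) ≤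
        (if w.1 = w.2 ∨ (w.1 - l₀) / (w.2 - l₀) ∈ (frobenius K p).fieldRange then ρ else 0) +
        (T' + s + 6 * ρ / P₁ + (T₁ + 1) * (ρ / P₁ + ρ / P₂)) := by
      intro w hw
      rw [Finset.mem_product] at hw
      have c2 := hA2 w.1 (Or.inr hw.1) w.2 (Or.inr hw.2)
      have c3 := hA3 w.1 hw.1 w.2 hw.2
      have c4 : (T₁ + 1) * (∑ v ∈ U, (Q.wt v : ℝ) * er (dl Q a d v) d (r v) w.1 w.2
        + ∑ v ∈ U, (Q.wt v : ℝ) * er (dl Q a d v) d (r v) (F₁^[n] w.1) (F₁^[n] w.2)) ≤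
        (T₁ + 1) * (ρ / P₁ + ρ / P₂) := by gcongr
      split_ifs with h
      · have c1 := H.sum_Mx_le (hY hw.1) (hY hw.2) hl₀
        have c5 : 0 ≤ 6 * ρ / P₁ := by positivity
        linarith
      · push Not at h
        have c1 := (hgood w.1 hw.1 w.2 hw.2 h.1 h.2).1
        linarith
    refine (Finset.sum_le_sum h1).trans ?_
    rw [Finset.sum_add_distrib, ← Finset.sum_filter, Finset.sum_const, Finset.sum_const,
      Finset.card_product, nsmul_eq_mul, nsmul_eq_mul]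
    have e3 : ((Y.card * Y.card : ℕ) : ℝ) = (Y.card : ℝ) ^ 2 := by push_cast; ring
    rw [e3]
    gcongr
  have hfin : c * ρ + (T' + 2) * s ≤ η * ρ + (T' + s + 6 * ρ / P₁
      + (T₁ + 1) * (ρ / P₁ + ρ / P₂)) := by
    have h1 := hsum.trans hA1
    have h2 : (c * ρ + (T' + 2) * s) * (Y.card : ℝ) ^ 2 ≤ (η * ρ + (T' + s + 6 * ρ / P₁
      + (T₁ + 1) * (ρ / P₁ + ρ / P₂))) * (Y.card : ℝ) ^ 2 := by linarith
    exact le_of_mul_le_mul_right h2 hNY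
  have hmul : ((T₁ + 1) * (1 / P₁ + 1 / P₂) + 6 / P₁) * ρ ≤ c / 4 * ρ := by gcongr
  have e4 : ((T₁ + 1) * (1 / P₁ + 1 / P₂) + 6 / P₁) * ρ =
      6 * ρ / P₁ + (T₁ + 1) * (ρ / P₁ + ρ / P₂) := by ring
  rw [e4] at hmul
  have hηρ : η * ρ ≤ c / 8 * ρ := by gcongr
  have hcρ : 0 ≤ c * ρ := by positivity
  -- `s < 1`, hence `s = 0`
  have hs1 : s < 1 := by
    by_contra hcon
    push Not at hcon
    have : (T' + 1) * 1 ≤ (T' + 1) * s := by gcongr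
    nlinarith
  have hs00 : s = 0 := by
    rcases hs0.lt_or_eq with h | h
    · exfalso
      -- some term is positive, and then at least one
      have : ∃ v ∈ U, 1 ≤ 2 * ((d : ℝ) + 1) * r v := by
        by_contra hcon
        push Not at hcon
        have : s = 0 := by
          rw [hs, ss]
          apply Finset.sum_eq_zero
          intro v hv
          rw [if_neg (not_le.mpr (hcon v hv))]
        linarith
      obtain ⟨v, hv, hv1⟩ := this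
      have h1 : (1 : ℝ) ≤ s := by
        calc (1 : ℝ) ≤ (Q.wt v : ℝ) := wtpos v
          _ = (if 1 ≤ 2 * ((d : ℝ) + 1) * r v then (Q.wt v : ℝ) else 0) := by rw [if_pos hv1]
          _ ≤ s := by
            rw [hs, ss]
            exact Finset.single_le_sum
              (f := fun v => if 1 ≤ 2 * ((d : ℝ) + 1) * r v then (Q.wt v : ℝ) else 0)
              (fun w _ => by
                have := wtpos (Q := Q) w
                show 0 ≤ (if 1 ≤ 2 * ((d : ℝ) + 1) * r w then (Q.wt w : ℝ) else 0)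
                split_ifs <;> linarith) hv
      linarith
    · exact h.symm
  have hρ1 : ρ ≤ 2 * T' / c := by
    rw [le_div_iff₀ hc]
    nlinarith
  have hlast : s + 6 * ρ / P₁ < 1 := by
    rw [hs00, zero_add]
    refine lt_of_le_of_lt ?_ hc2
    gcongr
  -- a good pair
  obtain ⟨w, hw, hwn⟩ : ∃ w ∈ Y ×ˢ Y, ¬ (w.1 = w.2 ∨
      (w.1 - l₀) / (w.2 - l₀) ∈ (frobenius K p).fieldRange) := by
    by_contra hcon
    push Not at hcon
    have h1 : (Y ×ˢ Y).filter (fun w => w.1 = w.2 ∨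
      (w.1 - l₀) / (w.2 - l₀) ∈ (frobenius K p).fieldRange) = Y ×ˢ Y :=
      Finset.filter_true_of_mem hcon
    rw [h1, Finset.card_product] at hbad
    push_cast at hbad
    nlinarith
  rw [Finset.mem_product] at hw
  push Not at hwn
  have h1 := (hgood w.1 hw.1 w.2 hw.2 hwn.1 hwn.2).2 hlast
  have hxl : w.1 - l₀ ≠ 0 := sub_ne_zero.mpr (fun e => hl₀Y (e ▸ hw.1))
  have hyl : w.2 - l₀ ≠ 0 := sub_ne_zero.mpr (fun e => hl₀Y (e ▸ hw.2))
  obtain ⟨b, hb⟩ := Q.const ((w.1 - l₀) / (w.2 - l₀)) (div_ne_zero hxl hyl) (by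
    intro v
    have h2 := Q.ord_mul v ((w.1 - l₀) / (w.2 - l₀)) (w.2 - l₀) (div_ne_zero hxl hyl) hyl
    rw [div_mul_cancel₀ _ hyl, h1 v] at h2
    omega)
  obtain ⟨b', hb'⟩ := IsAlgClosed.exists_pow_nat_eq b (Fact.out : p.Prime).pos
  apply hwn.2
  rw [RingHom.mem_fieldRange]
  refine ⟨algebraMap k K b', ?_⟩
  rw [frobenius_def, ← map_pow, hb', hb]

end Pool.Agent.P8H67.IU
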